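import Pool.Agent.H466.HE.SB
import Pool.Agent.H385.HP.Lip
import Pool.Agent.H333.HP.Mono

/-!
# No zeros to the right of the strip at the points regular at a larger scale (`S_ZF2` by helper466)
-/

set_option autoImplicit false

namespace Pool.Agent.H195.HE

open Complex MeasureTheory Set Filter Topology
open scoped ComplexConjugate
open Pool.Agent.H466.HF Pool.Agent.H466.LD Pool.Agent.H466.HP Pool.Agent.H466.HN Pool.Agent.H466.HD
open Pool.Agent.H466.HE
open Pool.Agent.H862.VK (Yz)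

/-- the hypothesis of monotonicity, from the cone condition -/
lemma mono_hyp {t y0 X y : ℝ} (hX : y0 ≤ X) (hy0 : 0 < y0) (hy : |y - t| ≤ 9 * X)
    (hcf : CF t y0 64) : ∀ b : ℂ, Yz b = 0 → 2 * b.re ^ 2 ≤ X ^ 2 + 2 * (b.im - y) ^ 2 := by
  intro b hb
  rcases hcf b hb with h5 | h5
  · have h6 : b.re ^ 2 ≤ (X / 4) ^ 2 := by
      apply sq_le_sq'
      · linarith [neg_abs_le b.re]
      · linarith [le_abs_self b.re]
    nlinarith [sq_nonneg (b.im - y), sq_nonneg X]
  · have h6 : |b.im - t| ≤ |b.im - y| + |y - t| := by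
      have e : b.im - t = (b.im - y) + (y - t) := by ring
      rw [e]
      exact abs_add_le _ _
    have h7 : |b.re| ≤ |b.im - y| / 8 + X / 8 := by
      have h9 : 0 ≤ |b.im - y| := abs_nonneg _
      have h10 : |b.im - t| / (8 * 64) ≤ |b.im - y| / 8 + X / 8 := by
        rw [div_le_iff₀ (by norm_num)]
        linarith
      exact h5.trans h10
    have h8 : b.re ^ 2 ≤ (|b.im - y| / 8 + X / 8) ^ 2 := by
      apply sq_le_sq'
      · linarith [neg_abs_le b.re]
      · linarith [le_abs_self b.re]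
    have h9 : |b.im - y| ^ 2 = (b.im - y) ^ 2 := sq_abs _
    nlinarith [sq_nonneg (|b.im - y| - X), sq_nonneg X]

lemma sq_aux {a b R : ℝ} (h : a ^ 2 ≤ R ^ 2) : (a + b) ^ 2 ≤ 2 * b ^ 2 + 2 * R ^ 2 := by
  nlinarith [sq_nonneg (a - b)]

lemma num_aux {R0 μ0 K L V S ℓ : ℝ} (hR0 : 1 ≤ R0) (hμ0 : 0 ≤ μ0) (hK : 46 ≤ K) (hL : 2 ≤ L)
    (hV : 1 ≤ V) (hS : S ≤ 2 + 11 * R0 ^ 2 + 2 * V) (hℓ : ℓ ≤ L * (2 * R0 + μ0)) :
    2 * L + ℓ + K * S ≤ (2 + 2 * R0 + μ0 + K * (4 + 11 * R0 ^ 2)) * (L * V) := by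
  have d1 : V ≤ L * V := le_mul_of_one_le_left (by linarith) (by linarith)
  have d2 : 1 ≤ L * V := by linarith
  have d3 : L ≤ L * V := le_mul_of_one_le_right (by linarith) hV
  have e1 : L * (2 + 2 * R0 + μ0) ≤ L * V * (2 + 2 * R0 + μ0) :=
    mul_le_mul_of_nonneg_right d3 (by linarith)
  have e2 : 11 * R0 ^ 2 * 1 ≤ 11 * R0 ^ 2 * (L * V) :=
    mul_le_mul_of_nonneg_left d2 (by positivity)
  have e3 : S ≤ (4 + 11 * R0 ^ 2) * (L * V) := by
    rw [add_mul]
    linarith
  have e4 : K * S ≤ K * ((4 + 11 * R0 ^ 2) * (L * V)) :=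
    mul_le_mul_of_nonneg_left e3 (by linarith)
  have e5 : (2 + 2 * R0 + μ0 + K * (4 + 11 * R0 ^ 2)) * (L * V) =
    L * V * (2 + 2 * R0 + μ0) + K * ((4 + 11 * R0 ^ 2) * (L * V)) := by ring
  rw [e5]
  linarith

theorem zf2 (h : S_ZFG) : S_ZF2 := by
  intro R0 hR0
  obtain ⟨κ1, K1, hκ1, hK1, hz⟩ := h
  obtain ⟨κ, T1, hκ0, hκκ, hT1, hlip⟩ := Pool.Agent.H385.HP.lip (2 * R0) (min κ1 (1 / 4))
    (by positivity) (by positivity)
  obtain ⟨A, K, μ0, Q, T2, hK, hμ0, hT2, -, hfar⟩ := far_data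
  have hκ1' : κ ≤ κ1 := hκκ.trans (min_le_left _ _)
  have hκ4 : κ ≤ 1 / 4 := hκκ.trans (min_le_right _ _)
  set B : ℝ := 4 * R0 + 4 with hB
  set M1 : ℝ := (K * (1 + 65 * B) + 1) / κ with hM1
  set C : ℝ := 2 + 2 * R0 + μ0 + K * (4 + 11 * R0 ^ 2) with hC
  have hC1 : 1 ≤ C := by
    have : 0 ≤ K * (4 + 11 * R0 ^ 2) := by positivity
    linarith
  refine ⟨κ, 8192, max 1 K1, max (max T1 (2 * T2)) (Real.exp (max M1 2)), 1 / (8 * C), hκ0, by norm_num,
    le_max_left _ _, hT1.trans ((le_max_left _ _).trans (le_max_left _ _)), by positivity, ?_⟩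
  intro T t y0 μ hT ht1 ht2 hy0 hy02 hR hμ hA hδ hΔ z hz1 hz2 hz3
  have hTT1 : T1 ≤ T := ((le_max_left _ _).trans (le_max_left _ _)).trans hT
  have hTT2 : 2 * T2 ≤ T := ((le_max_right _ _).trans (le_max_left _ _)).trans hT
  have hT10 : 10 ≤ T := by linarith
  have hLM : max M1 2 ≤ Real.log T := by
    rw [Real.le_log_iff_exp_le (by linarith)]
    exact (le_max_right _ _).trans hT
  have hL2 : 2 ≤ Real.log T := (le_max_right _ _).trans hLM
  have D := (hfar t t (by linarith) le_rfl (by linarith)).2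
  have hc := Pool.Agent.H385.HP.log_close hT10 ht1 ht2
  have hlip' := hlip T t y0 z.re μ hTT1 ht1 ht2 hy0 hR (by linarith) (by linarith) hμ
    (by linarith) (by linarith)
  set L := Real.log T with hLdef
  have hLM1 : K * (1 + 65 * B) + 1 ≤ κ * L := by
    have h := (le_max_left M1 2).trans hLM
    rw [hM1, div_le_iff₀ hκ0] at h
    linarith
  have hL0 : 0 < L := by linarith
  set Δ := μ * L with hΔdef
  set x := z.re with hx
  have hΔ0 : 0 < Δ := by positivity
  have hx0 : 0 < x := by linarith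
  have hΔx : Δ ≤ x / 128 := by linarith
  have hbd : ∀ w : ℂ, y0 ≤ w.re → w.re ≤ B → |w.im - t| ≤ 64 * w.re →
      ‖P w - (L / 2 : ℝ)‖ ≤ κ * L := fun w a b c =>
    Pool.Agent.H385.HP.P_bound hR D hc hLM1 a b c
  have hne : ∀ w : ℂ, y0 ≤ w.re → |w.im - t| ≤ 64 * w.re → Yz w ≠ 0 := by
    intro w a b
    rcases le_or_gt w.re 4 with h | h
    · exact cone_ne hy0 (by norm_num) hR.1 (x1 := 4) ⟨a, h, b⟩
    · exact D.ne w (by linarith)
  -- the points of the disc
  have hdisc : ∀ (w : ℂ) (r : ℝ), ‖w - (z - (Δ : ℝ))‖ ≤ r →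
      x - x / 128 - r ≤ w.re ∧ w.re ≤ x + r ∧ |w.im - t| ≤ x / 128 + r := by
    intro w r hw
    have hre := (Complex.abs_re_le_norm (w - (z - (Δ : ℝ)))).trans hw
    have him := (Complex.abs_im_le_norm (w - (z - (Δ : ℝ)))).trans hw
    rw [Complex.sub_re, Complex.sub_re, Complex.ofReal_re, ← hx] at hre
    rw [Complex.sub_im, Complex.sub_im, Complex.ofReal_im, sub_zero] at him
    obtain ⟨h1, h2⟩ := abs_le.1 hre
    refine ⟨by linarith, by linarith, ?_⟩
    have e : w.im - t = (w.im - z.im) + (z.im - t) := by ring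
    rw [e]
    exact (abs_add_le _ _).trans (by linarith)
  refine hz μ L (x / 4) z hμ hL0 (by linarith) ?_ ?_ ?_ ?_
  · -- the width
    have h1 : K1 ≤ μ * L ^ 2 := (le_max_right _ _).trans hA
    have h2 : K1 * μ ≤ Δ ^ 2 := by
      have h3 : K1 * μ ≤ μ * L ^ 2 * μ := mul_le_mul_of_nonneg_right h1 hμ.le
      have e : μ * L ^ 2 * μ = Δ ^ 2 := by rw [hΔdef]; ring
      rwa [e] at h3
    refine h2.trans (pow_le_pow_left₀ hΔ0.le (by linarith) 2)
  · -- nonvanishing
    intro w hw
    obtain ⟨h1, h2, h3⟩ := hdisc w _ hw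
    obtain ⟨h4, h5, -⟩ := hlip' w (by linarith) (by linarith)
    refine ⟨F_ne h4, ?_⟩
    have h6 := h5 (by linarith)
    calc 2 * μ * ‖P w - (L / 2 : ℝ)‖ ≤ 2 * μ * (κ * L) := by gcongr
      _ = 2 * κ * Δ := by rw [hΔdef]; ring
      _ ≤ 2 * (1 / 4) * (x / 128) := by gcongr
      _ ≤ x / 4 / 4 := by linarith
  · -- Lipschitz
    intro w w' hw hw'
    obtain ⟨h1, h2, h3⟩ := hdisc w _ hw
    obtain ⟨h1', h2', h3'⟩ := hdisc w' _ hw'
    obtain ⟨-, -, h6⟩ := hlip' w (by linarith) (by linarith)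
    refine (h6 w' (by linarith) (by linarith) (by linarith)).trans ?_
    gcongr
    exact min_le_left _ _
  · -- far away
    intro w v hw hv
    obtain ⟨h1, h2, h3⟩ := hdisc w _ hw
    have hv0 : 0 < |v| := by linarith
    have hew : (w.re : ℂ) + (w.im : ℂ) * I = w := Complex.re_add_im w
    have hewv : (w.re : ℂ) + ((w.im + v : ℝ) : ℂ) * I = w + v * I := by
      rw [Complex.ofReal_add, add_mul, ← add_assoc, hew]
    rcases le_or_gt |v| 1 with hv1 | hv1
    · -- cone
      set X := max w.re (|v| / 4) with hX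
      have hXa : w.re ≤ X := le_max_left _ _
      have hXv : |v| / 4 ≤ X := le_max_right _ _
      have hXB : X ≤ B := max_le (by linarith) (by linarith)
      have hXd : X - w.re ≤ |v| / 4 := by
        have : X ≤ w.re + |v| / 4 := max_le (by linarith) (by linarith)
        linarith
      have s1 : ∀ u ∈ uIcc w.re X, Yz ((u : ℂ) + (w.im : ℂ) * I) ≠ 0 ∧
          ‖P ((u : ℂ) + (w.im : ℂ) * I) - ((L / 2 : ℝ) : ℂ)‖ ≤ κ * L := by
        intro u hu
        rw [uIcc_of_le hXa] at hu
        have hre : ((u : ℂ) + (w.im : ℂ) * I).re = u := by simp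
        have him : ((u : ℂ) + (w.im : ℂ) * I).im = w.im := by simp
        have hu1 := hu.1
        have hu2 := hu.2
        exact ⟨hne _ (by rw [hre]; linarith) (by rw [hre, him]; linarith),
          hbd _ (by rw [hre]; linarith) (by rw [hre]; linarith) (by rw [hre, him]; linarith)⟩
      have g1 := hor s1
      have s2 : ∀ u ∈ uIcc w.im (w.im + v), Yz ((X : ℂ) + (u : ℂ) * I) ≠ 0 ∧
          ‖P ((X : ℂ) + (u : ℂ) * I) - ((L / 2 : ℝ) : ℂ)‖ ≤ κ * L := by
        intro u hu
        have hu1 : |u - w.im| ≤ |v| := by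
          have := Set.abs_sub_left_of_mem_uIcc hu
          have e : w.im + v - w.im = v := by ring
          rwa [e] at this
        have hu2 : |u - t| ≤ 3 * |v| := by
          have e : u - t = (u - w.im) + (w.im - t) := by ring
          rw [e]
          exact (abs_add_le _ _).trans (by linarith)
        have hre : ((X : ℂ) + (u : ℂ) * I).re = X := by simp
        have him : ((X : ℂ) + (u : ℂ) * I).im = u := by simp
        exact ⟨hne _ (by rw [hre]; linarith) (by rw [hre, him]; linarith),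
          hbd _ (by rw [hre]; linarith) (by rw [hre]; linarith) (by rw [hre, him]; linarith)⟩
      have g2 := ver s2
      have g3 : ‖LL gk 0 ((w.re : ℂ) + ((w.im + v : ℝ) : ℂ) * I)‖ ≤
          ‖LL gk 0 ((X : ℂ) + ((w.im + v : ℝ) : ℂ) * I)‖ := by
        rw [F_Yz_norm, F_Yz_norm]
        have h4 := Pool.Agent.H333.HP.mono w.re X (w.im + v) (by linarith) hXa
          (mono_hyp (y0 := y0) (t := t) (by linarith) hy0 (by
            have e : w.im + v - t = (w.im - t) + v := by ring
            rw [e]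
            exact (abs_add_le _ _).trans (by linarith)) hR.1)
        have e1 : (w.re : ℂ) + I * ((w.im + v : ℝ) : ℂ) =
          (w.re : ℂ) + ((w.im + v : ℝ) : ℂ) * I := by ring
        have e2 : (X : ℂ) + I * ((w.im + v : ℝ) : ℂ) =
          (X : ℂ) + ((w.im + v : ℝ) : ℂ) * I := by ring
        rw [e1, e2] at h4
        linarith
      rw [hewv] at g3
      rw [hew] at g1
      have e3 : w.im + v - w.im = v := by ring
      rw [e3] at g2
      refine g3.trans (g2.trans ((mul_le_mul_of_nonneg_right g1 (Real.exp_pos _).le).trans ?_))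
      rw [mul_assoc, ← Real.exp_add]
      apply mul_le_mul_of_nonneg_left _ (norm_nonneg _)
      apply Real.exp_le_exp.mpr
      have a1 : |X - w.re| = X - w.re := abs_of_nonneg (by linarith)
      rw [a1]
      have b1 : L / 2 * (X - w.re) ≤ L / 2 * (|v| / 4) := by gcongr
      have b2 : κ * L * (X - w.re) ≤ 1 / 4 * L * (|v| / 4) := by
        have : 0 ≤ X - w.re := by linarith
        gcongr
      have b3 : κ * L * |v| ≤ 1 / 4 * L * |v| := by gcongr
      have b4 : L * |v| ≤ v ^ 2 / (8 * μ) := by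
        rw [le_div_iff₀ (by positivity)]
        have e4 : v ^ 2 = |v| * |v| := by rw [← sq_abs]; ring
        rw [e4]
        calc L * |v| * (8 * μ) = |v| * (8 * Δ) := by rw [hΔdef]; ring
          _ ≤ |v| * |v| := by gcongr; linarith
      have b5 : 0 ≤ L * |v| := by positivity
      linarith
    · -- very far
      set a' := max w.re (3 / 2) with ha'
      have ha1 : w.re ≤ a' := le_max_left _ _
      have ha2 : 3 / 2 ≤ a' := le_max_right _ _
      have ha3 : a' ≤ 2 * R0 := max_le (by linarith) (by linarith)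
      have ha4 : a' - w.re ≤ 3 / 2 := by
        have : a' ≤ w.re + 3 / 2 := max_le (by linarith) (by linarith)
        linarith
      have s1 : ∀ u ∈ uIcc w.re a', Yz ((u : ℂ) + (w.im : ℂ) * I) ≠ 0 ∧
          ‖P ((u : ℂ) + (w.im : ℂ) * I) - ((L / 2 : ℝ) : ℂ)‖ ≤ κ * L := by
        intro u hu
        rw [uIcc_of_le ha1] at hu
        have hre : ((u : ℂ) + (w.im : ℂ) * I).re = u := by simp
        have him : ((u : ℂ) + (w.im : ℂ) * I).im = w.im := by simp
        have hu1 := hu.1
        have hu2 := hu.2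
        exact ⟨hne _ (by rw [hre]; linarith) (by rw [hre, him]; linarith),
          hbd _ (by rw [hre]; linarith) (by rw [hre]; linarith) (by rw [hre, him]; linarith)⟩
      have g1 := hor s1
      rw [hew] at g1
      have g2 := D.up (w + v * I)
      have g3 := D.low ((a' : ℂ) + (w.im : ℂ) * I) (by simpa using ha2)
      have hre3 : ((a' : ℂ) + (w.im : ℂ) * I).re = a' := by simp
      have him3 : ((a' : ℂ) + (w.im : ℂ) * I).im = w.im := by simp
      rw [hre3, him3] at g3
      have hre2 : (w + v * I).re = w.re := by simp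
      have him2 : (w + v * I).im = w.im + v := by simp
      rw [hre2, him2] at g2
      set Γ := ‖gz ((t : ℂ) * I)‖ with hΓ
      have hΓ0 : 0 < Γ := D.Γpos
      have hl := abs_le.1 hc
      have hℓ1 : Real.log t / 2 ≤ L := by linarith [hl.2]
      have hℓ0 : 0 ≤ Real.log t / 2 := by linarith [hl.1]
      have g4 : Γ ≤ ‖LL gk 0 w‖ * Real.exp (2 * L + K * (1 + a' ^ 2 + (w.im - t) ^ 2)) := by
        have g5 := g3.trans g1
        have g6 : Γ * Real.exp (Real.log t / 2 * a' - K * (1 + a' ^ 2 + (w.im - t) ^ 2)) *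
            Real.exp (-(Real.log t / 2 * a' - K * (1 + a' ^ 2 + (w.im - t) ^ 2))) ≤
            ‖LL gk 0 w‖ * Real.exp (L / 2 * (a' - w.re) + κ * L * |a' - w.re|) *
            Real.exp (-(Real.log t / 2 * a' - K * (1 + a' ^ 2 + (w.im - t) ^ 2))) :=
          mul_le_mul_of_nonneg_right g5 (Real.exp_pos _).le
        rw [mul_assoc, ← Real.exp_add, add_neg_cancel, Real.exp_zero, mul_one, mul_assoc,
          ← Real.exp_add] at g6
        refine g6.trans ?_
        apply mul_le_mul_of_nonneg_left _ (norm_nonneg _)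
        apply Real.exp_le_exp.mpr
        have a1 : |a' - w.re| = a' - w.re := abs_of_nonneg (by linarith)
        rw [a1]
        have b1 : L / 2 * (a' - w.re) ≤ L / 2 * (3 / 2) := by gcongr
        have b2 : κ * L * (a' - w.re) ≤ 1 / 4 * L * (3 / 2) := by
          have : 0 ≤ a' - w.re := by linarith
          gcongr
        have b3 : 0 ≤ Real.log t / 2 * a' := by positivity
        linarith
      have g7 : ‖LL gk 0 (w + v * I)‖ ≤ ‖LL gk 0 w‖ *
          Real.exp (2 * L + K * (1 + a' ^ 2 + (w.im - t) ^ 2)) *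
          Real.exp (Real.log t / 2 * (|w.re| + μ0) + K * (1 + w.re ^ 2 + (w.im + v - t) ^ 2)) :=
        g2.trans (mul_le_mul_of_nonneg_right g4 (Real.exp_pos _).le)
      refine g7.trans ?_
      rw [mul_assoc, ← Real.exp_add]
      apply mul_le_mul_of_nonneg_left _ (norm_nonneg _)
      apply Real.exp_le_exp.mpr
      have hv2 : 1 ≤ v ^ 2 := by
        rw [← sq_abs]
        exact one_le_pow₀ hv1.le
      have hw0 : 0 ≤ w.re := by linarith
      have c1 : |w.re| = w.re := abs_of_nonneg hw0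
      rw [c1]
      have c2 : w.re ^ 2 ≤ (2 * R0) ^ 2 := by
        apply pow_le_pow_left₀ hw0; linarith
      have c3 : a' ^ 2 ≤ (2 * R0) ^ 2 := by
        apply pow_le_pow_left₀ (by linarith); linarith
      have c4 : (w.im - t) ^ 2 ≤ R0 ^ 2 := by
        rw [← sq_abs (w.im - t)]
        apply pow_le_pow_left₀ (abs_nonneg _); linarith
      have c5 : (w.im + v - t) ^ 2 ≤ 2 * v ^ 2 + 2 * R0 ^ 2 := by
        have e6 : w.im + v - t = (w.im - t) + v := by ring
        rw [e6]
        exact sq_aux c4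
      rw [mul_pow] at c2 c3
      have c6 : Real.log t / 2 * (w.re + μ0) ≤ L * (2 * R0 + μ0) := by
        apply mul_le_mul hℓ1 (by linarith) (by linarith) hL0.le
      have c7 : (1 + a' ^ 2 + (w.im - t) ^ 2) + (1 + w.re ^ 2 + (w.im + v - t) ^ 2) ≤
          2 + 11 * R0 ^ 2 + 2 * v ^ 2 := by linarith
      have c8 := num_aux hR0 hμ0 hK hL2 hv2 c7 c6
      rw [mul_add K] at c8
      have c10 : C * (L * v ^ 2) ≤ v ^ 2 / (8 * μ) := by
        rw [le_div_iff₀ (by positivity)]
        have d1 : Δ * (8 * C) ≤ 1 := by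
          rw [le_div_iff₀ (by positivity)] at hδ
          exact hδ
        calc C * (L * v ^ 2) * (8 * μ) = v ^ 2 * (Δ * (8 * C)) := by rw [hΔdef]; ring
          _ ≤ v ^ 2 * 1 := by gcongr
          _ = v ^ 2 := mul_one _
      linarith

end Pool.Agent.H195.HE
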